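import Pool.Agent.W359.KF.Li

/-!
# k-fold sums and products: the linear inequalities
-/

set_option autoImplicit false
set_option linter.all false

namespace Pool.Agent.Helper318KF

open Pool.Agent.W359.KF (decE decD lowX)

/-- Lower bound for `x (k + 3)` in terms of `x 3`. -/
theorem lowX3 (x y : ℕ → ℝ) (n c : ℝ) (hc : 0 ≤ c)
    (h : ∀ i i' : ℕ, 3 * n + x i + y i' ≤ c + 2 * x (i + 1) + 2 * y (i' + 1)) (k : ℕ) :
    2 * 2 ^ k * x 3 + 2 * 2 ^ k * (2 * 2 ^ k - 2) * (3 * n - x (k + 3) - y (k + 3)) -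
      (2 ^ k - 1) * (3 * n - x 2 - y 1) - 4 * 2 ^ k * (2 ^ k - 1) * c ≤
      2 * 2 ^ k * x (k + 3) := by
  induction k with
  | zero => simp
  | succ k ih =>
    have hd := decD x y n c h (k + 2)
    have h1 := h (k + 3) (k + 3)
    have hT : (1 : ℝ) ≤ 2 ^ k := one_le_pow₀ (by norm_num)
    have e3 : k + 1 + 3 = k + 4 := by ring
    have e4 : k + 2 + 2 = k + 4 := by ring
    have e5 : k + 2 + 1 = k + 3 := by ring
    have e6 : (2 : ℝ) ^ (k + 2) = 2 ^ k * 4 := by rw [pow_add]; norm_num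
    rw [e4, e5, e6] at hd
    rw [e3, pow_succ]
    have h2 : 2 * (3 * n - x (k + 4) - y (k + 4)) ≤ (3 * n - x (k + 3) - y (k + 3)) + c := by
      have e : k + 4 = k + 3 + 1 := by ring
      rw [e]
      linarith
    set T : ℝ := 2 ^ k with hTdef
    have h3 := mul_le_mul_of_nonneg_left h2 (by nlinarith : (0 : ℝ) ≤ 8 * T ^ 2 - 4 * T)
    nlinarith

/-- The exponent for the `(j+2)`-fold sets, `j` at least 1. -/
noncomputable def ex5 (j : ℕ) : ℝ :=
  if j = 1 then 6385 / 4501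
  else (8313 * (2 ^ j) ^ 2 - 5413 * 2 ^ j + 500) / (2 ^ j * (5542 * 2 ^ j - 3007))

theorem li5 (j : ℕ) (hj : 1 ≤ j) (x y : ℕ → ℝ) (n c E : ℝ) (hc : 0 ≤ c) (hE : 0 ≤ E)
    (hST : ∀ i i' : ℕ, 3 * n + x i + y i' ≤ c + 2 * x (i + 1) + 2 * y (i' + 1))
    (h4 : 11 * n + x 1 ≤ E + 5 * y 1 + 2 * x 2 + 2 * x 3)
    (h5 : 17 * n + 5 * x 1 ≤ E + 10 * x 2 + 3 * y 1 + 4 * y 2)
    (h6 : 680 * n ≤ E + 298 * x 1 + 209 * y 1) :
    ex5 j * n ≤ max (x (j + 1)) (y (j + 1)) + 1 * (c + E) := by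
  rcases Nat.lt_or_ge j 2 with hj2 | hj2
  · have e1 : j = 1 := by omega
    subst e1
    have h7 := hST 1 1
    have h8 := le_max_left (x (1 + 1)) (y (1 + 1))
    have h9 := le_max_right (x (1 + 1)) (y (1 + 1))
    unfold ex5
    rw [if_pos rfl]
    set m := max (x (1 + 1)) (y (1 + 1))
    norm_num at h7 h8 h9
    linarith
  · obtain ⟨k, rfl⟩ : ∃ k, j = k + 2 := ⟨j - 2, by omega⟩
    have hD := decE x y n c hST (k + 2)
    have hR := lowX x y n c hc hST (k + 1)
    have hR3 := lowX3 x y n c hc hST k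
    have e4 : k + 2 + 1 = k + 3 := by ring
    have e5 : k + 1 + 2 = k + 3 := by ring
    rw [e4] at hD ⊢
    rw [e5] at hR
    have h7 := le_max_left (x (k + 3)) (y (k + 3))
    have h8 := le_max_right (x (k + 3)) (y (k + 3))
    set m := max (x (k + 3)) (y (k + 3))
    have hT : (1 : ℝ) ≤ 2 ^ k := one_le_pow₀ (by norm_num)
    unfold ex5
    rw [if_neg (by omega)]
    have ep2 : (2 : ℝ) ^ (k + 2) = 2 ^ k * 4 := by rw [pow_add]; norm_num
    have ep1 : (2 : ℝ) ^ (k + 1) = 2 ^ k * 2 := pow_succ 2 k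
    rw [ep2] at hD ⊢
    rw [ep1] at hR
    set T : ℝ := 2 ^ k with hTdef
    set t : ℝ := T * 4 with ht
    have ht4 : 4 ≤ t := by rw [ht]; linarith
    have hTt : T = t / 4 := by rw [ht]; ring
    rw [hTt] at hR hR3
    set e : ℝ := 3 * n - x (k + 3) - y (k + 3) with he
    have hem : 3 * n - 2 * m ≤ e := by rw [he]; linarith
    have hD' : t * (3 * n - 2 * m) ≤ (3 * n - x 1 - y 1) + (t - 1) * c :=
      (mul_le_mul_of_nonneg_left hem (by linarith)).trans hD
    -- the bound for `x 2`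
    have hR1 : t * x 2 + t * (t - 2) * e - (t - 2) * (3 * n - x 2 - y 1) - t * (t - 2) * c ≤
        t * x (k + 3) := by nlinarith
    have hR2 : t * (t - 2) * (3 * n - 2 * m) ≤ t * (t - 2) * e :=
      mul_le_mul_of_nonneg_left hem (mul_nonneg (by linarith) (by linarith))
    have hR4 : t * x (k + 3) ≤ t * m := mul_le_mul_of_nonneg_left h7 (by linarith)
    have hR' : t * x 2 + t * (t - 2) * (3 * n - 2 * m) - (t - 2) * (3 * n - x 2 - y 1) -
        t * (t - 2) * c ≤ t * m := by linarith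
    -- the bound for `x 3`
    have hS1 : 2 * t * x 3 + t * (t - 4) * e - (t - 4) * (3 * n - x 2 - y 1) -
        t * (t - 4) * c ≤ 2 * t * x (k + 3) := by nlinarith
    have hS2 : t * (t - 4) * (3 * n - 2 * m) ≤ t * (t - 4) * e :=
      mul_le_mul_of_nonneg_left hem (mul_nonneg (by linarith) (by linarith))
    have hS4 : 2 * t * x (k + 3) ≤ 2 * t * m :=
      mul_le_mul_of_nonneg_left h7 (by linarith)
    have hS' : 2 * t * x 3 + t * (t - 4) * (3 * n - 2 * m) - (t - 4) * (3 * n - x 2 - y 1) -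
        t * (t - 4) * c ≤ 2 * t * m := by linarith
    have g1 := mul_le_mul_of_nonneg_left hD'
      (mul_nonneg (by linarith) (by linarith) : (0 : ℝ) ≤ t * (2504 * t - 1014))
    have g2 := mul_le_mul_of_nonneg_left hR' (by linarith : (0 : ℝ) ≤ 89 * (t + 4))
    have g3 := mul_le_mul_of_nonneg_left hS' (by linarith : (0 : ℝ) ≤ 178 * (t - 1))
    have g4 := mul_le_mul_of_nonneg_left h4
      (mul_nonneg (by linarith) (by linarith) : (0 : ℝ) ≤ 178 * t * (t - 1))
    have g5 := mul_le_mul_of_nonneg_left h6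
      (mul_nonneg (by linarith) (by linarith) : (0 : ℝ) ≤ t * (9 * t - 4))
    have hden : 0 < t * (5542 * t - 3007) := mul_pos (by linarith) (by linarith)
    rw [div_mul_eq_mul_div, div_le_iff₀ hden]
    have ht0 : 0 < t := by linarith
    refine le_of_mul_le_mul_left ?_ ht0
    have g6 : 0 ≤ (t * (t * (5542 * t - 3007)) - (t * (2504 * t - 1014) * (t - 1) +
        89 * (t + 4) * (t * (t - 2)) + 178 * (t - 1) * (t * (t - 4)))) * c :=
      mul_nonneg (by nlinarith [mul_pos ht0 ht0, mul_nonneg ht0.le (mul_nonneg ht0.le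
        (by linarith : (0 : ℝ) ≤ t - 4))]) hc
    have g7 : 0 ≤ (t * (t * (5542 * t - 3007)) - (178 * t * (t - 1) + t * (9 * t - 4))) * E :=
      mul_nonneg (by nlinarith [mul_pos ht0 ht0, mul_nonneg ht0.le (mul_nonneg ht0.le
        (by linarith : (0 : ℝ) ≤ t - 4))]) hE
    linarith

theorem one_le_ex5 (j : ℕ) (hj : 1 ≤ j) : 1 ≤ ex5 j := by
  unfold ex5
  split_ifs with h
  · norm_num
  · have hX : (4 : ℝ) ≤ 2 ^ j := by
      obtain ⟨k, rfl⟩ : ∃ k, j = k + 2 := ⟨j - 2, by omega⟩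
      rw [pow_add]
      have : (1 : ℝ) ≤ 2 ^ k := one_le_pow₀ (by norm_num)
      linarith
    set X : ℝ := 2 ^ j with hXd
    have hden : 0 < X * (5542 * X - 3007) := by
      apply mul_pos (by linarith)
      linarith
    rw [le_div_iff₀ hden]
    nlinarith

end Pool.Agent.Helper318KF
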