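import Pool.Agent.Helper318KF.Lg
import Pool.Agent.Helper318KF.Li
import Pool.Agent.W839.KF.KR

/-!
# k-fold sums and products: the exponents
-/

set_option autoImplicit false
set_option linter.all false
set_option maxHeartbeats 1000000

open Finset
open scoped Pointwise

namespace Pool.Agent.Helper318KF

open Pool.Agent.W798.SP Pool.Agent.W798.KF Pool.Agent.TH408.SP
open Pool.Agent.W741.KF (lg_le sm_ne pr_ne pr_pos)
open Pool.Agent.W839.KF (posPart sm_nonempty)

theorem kp5 (j : ℕ) (hj : 1 ≤ j) (δ : ℝ) (hδ : 0 < δ) : ∃ c : ℝ, 0 < c ∧ ∀ A : Finset ℝ,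
    A.Nonempty → (∀ x ∈ A, 0 < x) → c * (A.card : ℝ) ^ (ex5 j - δ) ≤
      max ((sm A (j + 1)).card : ℝ) ((pr A (j + 1)).card : ℝ) := by
  have hKST := pKST
  obtain ⟨c6, hc6, h6⟩ := n6log hδ
  obtain ⟨C0, hC0d⟩ : ∃ C0 : ℝ, C0 = cst5 δ + c6 := ⟨_, rfl⟩
  have hC00 : 0 ≤ C0 := by rw [hC0d]; exact add_nonneg (cst5_nonneg δ) hc6
  refine ⟨Real.exp (-(Real.log 512 + C0)), Real.exp_pos _, ?_⟩
  intro A hA hpos
  have hN1 : 1 ≤ A.card := hA.card_pos
  have hNpos : (0 : ℝ) < A.card := by exact_mod_cast hN1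
  have hn0 : 0 ≤ Real.log A.card := Real.log_nonneg (by exact_mod_cast hN1)
  have hsm : ∀ i, (0 : ℝ) < ((sm A i).card : ℝ) := fun i => by
    exact_mod_cast (sm_ne A hA i).card_pos
  have hpr : ∀ i, (0 : ℝ) < ((pr A i).card : ℝ) := fun i => by
    exact_mod_cast (pr_ne A hA i).card_pos
  have hc1 : ∀ i i' : ℕ, 3 * Real.log A.card + Real.log ((sm A i).card : ℝ) +
      Real.log ((pr A i').card : ℝ) ≤ Real.log 512 + 2 * Real.log ((sm A (i + 1)).card : ℝ) +
        2 * Real.log ((pr A (i' + 1)).card : ℝ) := by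
    intro i i'
    have h := hKST A (sm A i) (pr A i') hpos (fun g hg => (pr_pos A hpos i' g hg).ne')
    have h' : (A.card : ℝ) ^ 3 * ((sm A i).card : ℝ) * ((pr A i').card : ℝ) ≤
        512 * ((sm A (i + 1)).card : ℝ) ^ 2 * ((pr A (i' + 1)).card : ℝ) ^ 2 := by
      exact_mod_cast h
    have hs := hsm i
    have hp := hpr i'
    have hs' := hsm (i + 1)
    have hp' := hpr (i' + 1)
    have h2 := Real.log_le_log (by positivity) h'
    rw [Real.log_mul (by positivity) (by positivity), Real.log_mul (by positivity) (by positivity),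
      Real.log_mul (by positivity) (by positivity), Real.log_mul (by positivity) (by positivity),
      Real.log_pow, Real.log_pow, Real.log_pow] at h2
    push_cast at h2
    linarith
  have g4 : 11 * Real.log A.card + Real.log ((sm A 1).card : ℝ) ≤ (δ * Real.log A.card + C0) +
      5 * Real.log ((pr A 1).card : ℝ) + 2 * Real.log ((sm A 2).card : ℝ) +
      2 * Real.log ((sm A 3).card : ℝ) := by
    have h : 11 * Real.log A.card + Real.log ((sm A 1).card : ℝ) ≤
        5 * Real.log ((pr A 1).card : ℝ) + 2 * Real.log ((sm A 2).card : ℝ) +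
        2 * Real.log ((sm A 3).card : ℝ) + δ * Real.log A.card + cst5 δ := n4log hδ A hA hpos
    rw [hC0d]
    linarith
  have g5 : 17 * Real.log A.card + 5 * Real.log ((sm A 1).card : ℝ) ≤
      (δ * Real.log A.card + C0) + 10 * Real.log ((sm A 2).card : ℝ) +
      3 * Real.log ((pr A 1).card : ℝ) + 4 * Real.log ((pr A 2).card : ℝ) := by
    have h : 17 * Real.log A.card + 5 * Real.log ((sm A 1).card : ℝ) ≤
        10 * Real.log ((sm A 2).card : ℝ) +
        3 * Real.log ((pr A 1).card : ℝ) + 4 * Real.log ((pr A 2).card : ℝ) +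
        δ * Real.log A.card + cst5 δ := n5log hδ A hA hpos
    rw [hC0d]
    linarith
  have g6 : 680 * Real.log A.card ≤ (δ * Real.log A.card + C0) +
      298 * Real.log ((sm A 1).card : ℝ) + 209 * Real.log ((pr A 1).card : ℝ) := by
    have h : 680 * Real.log A.card ≤ 298 * Real.log ((sm A 1).card : ℝ) +
        209 * Real.log ((pr A 1).card : ℝ) + δ * Real.log A.card + c6 := h6 A hA hpos
    have := cst5_nonneg δ
    rw [hC0d]
    linarith
  have hE0 : 0 ≤ δ * Real.log A.card + C0 := by positivity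
  have hfin := li5 j hj (fun i => Real.log ((sm A i).card : ℝ))
    (fun i => Real.log ((pr A i).card : ℝ))
    (Real.log A.card) (Real.log 512) (δ * Real.log A.card + C0)
    (Real.log_nonneg (by norm_num)) hE0 hc1 g4 g5 g6
  have hfin2 : (ex5 j - δ) * Real.log A.card - (Real.log 512 + C0) ≤
      max (Real.log ((sm A (j + 1)).card : ℝ)) (Real.log ((pr A (j + 1)).card : ℝ)) := by
    linarith
  have e1 : (A.card : ℝ) ^ (ex5 j - δ) = Real.exp ((ex5 j - δ) * Real.log A.card) := by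
    rw [Real.rpow_def_of_pos hNpos, mul_comm]
  rw [e1, ← Real.exp_add]
  rcases le_max_iff.1 hfin2 with h | h
  · refine le_trans ?_ (le_max_left _ _)
    rw [← Real.le_log_iff_exp_le (hsm (j + 1))]
    linarith
  · refine le_trans ?_ (le_max_right _ _)
    rw [← Real.le_log_iff_exp_le (hpr (j + 1))]
    linarith

theorem kr5 (j : ℕ) (hj : 1 ≤ j) (δ : ℝ) (hδ : 0 < δ) : ∃ c : ℝ, 0 < c ∧ ∀ A : Finset ℝ,
    A.Nonempty → c * (A.card : ℝ) ^ (ex5 j - δ) ≤
      max ((sm A (j + 1)).card : ℝ) ((pr A (j + 1)).card : ℝ) := by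
  have hδ' : 0 < min δ 1 := lt_min hδ one_pos
  obtain ⟨c, hc, hP⟩ := kp5 j hj (min δ 1) hδ'
  have hE := one_le_ex5 j hj
  set E : ℝ := ex5 j with hEd
  have he0 : 0 ≤ E - min δ 1 := by
    have := min_le_right δ 1
    linarith
  have he1 : E - min δ 1 ≤ E := by linarith
  have he2 : E - δ ≤ E - min δ 1 := by
    have := min_le_left δ 1
    linarith
  set e : ℝ := E - min δ 1 with he
  refine ⟨min c 1 / 3 ^ E, by positivity, ?_⟩
  intro A hA
  have hA1 : 1 ≤ A.card := hA.card_pos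
  have hN1 : (1:ℝ) ≤ A.card := by exact_mod_cast hA1
  have hcn : 0 ≤ min c 1 / 3 ^ E := by positivity
  have hstep : min c 1 / 3 ^ E * (A.card : ℝ) ^ (E - δ) ≤
      min c 1 / 3 ^ E * (A.card : ℝ) ^ e :=
    mul_le_mul_of_nonneg_left (Real.rpow_le_rpow_of_exponent_le hN1 he2) hcn
  refine hstep.trans ?_
  have h3pos : (0:ℝ) < 3 ^ E := by positivity
  rcases Nat.lt_or_ge A.card 3 with h3 | h3
  · -- small sets
    have hN3 : (A.card : ℝ) ≤ 3 := by exact_mod_cast h3.le
    have h1 : (A.card : ℝ) ^ e ≤ 3 ^ E := by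
      calc (A.card : ℝ) ^ e ≤ 3 ^ e := Real.rpow_le_rpow (by linarith) hN3 he0
        _ ≤ 3 ^ E := Real.rpow_le_rpow_of_exponent_le (by norm_num) he1
    have h2 : min c 1 / 3 ^ E * (A.card : ℝ) ^ e ≤ 1 := by
      rw [div_mul_eq_mul_div, div_le_one h3pos]
      calc min c 1 * (A.card : ℝ) ^ e ≤ 1 * (A.card : ℝ) ^ e :=
            mul_le_mul_of_nonneg_right (min_le_right _ _) (by positivity)
        _ ≤ 3 ^ E := by rw [one_mul]; exact h1
    have h4 : (1:ℝ) ≤ ((sm A (j + 1)).card : ℝ) := by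
      exact_mod_cast (sm_nonempty hA (j + 1)).card_pos
    exact h2.trans (h4.trans (le_max_left _ _))
  · obtain ⟨B, hB0, hBp, hB3, hBs, hBm⟩ := posPart A h3
    have h7 := hP B hB0 hBp
    have h8 : max ((sm B (j + 1)).card : ℝ) ((pr B (j + 1)).card : ℝ) ≤
        max ((sm A (j + 1)).card : ℝ) ((pr A (j + 1)).card : ℝ) :=
      max_le_max (by exact_mod_cast hBs (j + 1)) (by exact_mod_cast hBm (j + 1))
    refine le_trans ?_ (h7.trans h8)
    have hB3' : (A.card : ℝ) ≤ 3 * B.card := by exact_mod_cast hB3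
    have h9 : (A.card : ℝ) ^ e ≤ 3 ^ E * (B.card : ℝ) ^ e := by
      calc (A.card : ℝ) ^ e ≤ (3 * (B.card : ℝ)) ^ e :=
            Real.rpow_le_rpow (by linarith) hB3' he0
        _ = 3 ^ e * (B.card : ℝ) ^ e := Real.mul_rpow (by norm_num) (by positivity)
        _ ≤ 3 ^ E * (B.card : ℝ) ^ e :=
            mul_le_mul_of_nonneg_right (Real.rpow_le_rpow_of_exponent_le (by norm_num) he1)
              (by positivity)
    calc min c 1 / 3 ^ E * (A.card : ℝ) ^ e
        ≤ min c 1 / 3 ^ E * (3 ^ E * (B.card : ℝ) ^ e) :=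
          mul_le_mul_of_nonneg_left h9 hcn
      _ = min c 1 * (B.card : ℝ) ^ e := by
          field_simp
      _ ≤ c * (B.card : ℝ) ^ e :=
          mul_le_mul_of_nonneg_right (min_le_left _ _) (by positivity)

theorem k3 (j : ℕ) (hj : 1 ≤ j) (κ : ℝ) (hκ : κ < ex5 j) : ∃ c : ℝ, 0 < c ∧ ∀ A : Finset ℝ,
    A.Nonempty → c * (A.card : ℝ) ^ κ ≤
      max ((sm A (j + 1)).card : ℝ) ((pr A (j + 1)).card : ℝ) := by
  obtain ⟨c, hc, H⟩ := kr5 j hj (ex5 j - κ) (by linarith)
  have he : ex5 j - (ex5 j - κ) = κ := by ring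
  rw [he] at H
  exact ⟨c, hc, H⟩

end Pool.Agent.Helper318KF
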