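import Pool.Agent.W798.KF.Up

/-!
# k-fold sums and products: three-fold products

The number of solutions of `a₁ a₂ a₃ = b₁ b₂ b₃` is bounded with the dyadic levels of the number of
representations of the ratios.
-/

set_option autoImplicit false
set_option linter.all false

open Finset
open scoped Classical Pointwise

namespace Pool.Agent.Helper318KF

open Pool.Agent.W904.AK Pool.Agent.W798.SP Pool.Agent.W798.KF

theorem mem_fib' {A : Finset ℝ} {l x : ℝ} : x ∈ fib A l ↔ x ∈ A ∧ l * x ∈ A := by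
  unfold fib; rw [Finset.mem_filter]

/-- the number of pairs `(a, c)` of elements of `A` with `z a c` in `A` -/
noncomputable def cz (A : Finset ℝ) (z : ℝ) : ℕ := ∑ a ∈ A, (fib A (z * a)).card

theorem T3low (A : Finset ℝ) (hA : ∀ x ∈ A, 0 < x) :
    A.card ^ 6 ≤ (A * (A * A)).card * ∑ z ∈ (A / A) / A, (cz A z) ^ 2 := by
  set W : Finset (ℝ × ℝ × ℝ) := A ×ˢ (A ×ˢ A) with hWd
  have hmap : ∀ w ∈ W, w.1 * (w.2.1 * w.2.2) ∈ A * (A * A) := by
    intro w hw
    rw [hWd, Finset.mem_product, Finset.mem_product] at hw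
    exact Finset.mul_mem_mul hw.1 (Finset.mul_mem_mul hw.2.1 hw.2.2)
  have hcount : W.card = ∑ v ∈ A * (A * A),
      (W.filter (fun w => w.1 * (w.2.1 * w.2.2) = v)).card :=
    Finset.card_eq_sum_card_fiberwise hmap
  have hWc : W.card = A.card * (A.card * A.card) := by
    rw [hWd, Finset.card_product, Finset.card_product]
  have hCS : W.card ^ 2 ≤ (A * (A * A)).card *
      ∑ v ∈ A * (A * A), (W.filter (fun w => w.1 * (w.2.1 * w.2.2) = v)).card ^ 2 := by
    rw [hcount]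
    exact sq_sum_le_card_mul_sum_sq
  have h0 : A.card ^ 6 = W.card ^ 2 := by rw [hWc]; ring
  rw [h0]
  refine hCS.trans (Nat.mul_le_mul_left _ ?_)
  have h1 : ∑ v ∈ A * (A * A), (W.filter (fun w => w.1 * (w.2.1 * w.2.2) = v)).card ^ 2 =
      ((A * (A * A)).sigma (fun v => (W.filter (fun w => w.1 * (w.2.1 * w.2.2) = v)) ×ˢ
        (W.filter (fun w => w.1 * (w.2.1 * w.2.2) = v)))).card := by
    rw [Finset.card_sigma]
    exact Finset.sum_congr rfl fun v _ => by rw [Finset.card_product, sq]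
  have h2 : ∑ z ∈ (A / A) / A, (cz A z) ^ 2 =
      (((A / A) / A).sigma (fun z => (A.sigma (fun a => fib A (z * a))) ×ˢ
        (A.sigma (fun a => fib A (z * a))))).card := by
    rw [Finset.card_sigma]
    exact Finset.sum_congr rfl fun z _ => by
      rw [Finset.card_product, Finset.card_sigma, sq]; rfl
  rw [h1, h2]
  refine Finset.card_le_card_of_injOn
    (fun x => (⟨x.2.2.1 / x.2.1.2.1 / x.2.1.2.2, (⟨x.2.1.2.1, x.2.1.2.2⟩,
      ⟨x.2.2.2.1, x.2.2.2.2⟩)⟩ : Σ _ : ℝ, (Σ _ : ℝ, ℝ) × (Σ _ : ℝ, ℝ))) ?_ ?_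
  · rintro ⟨v, ⟨a, b, c⟩, ⟨a', b', c'⟩⟩ h
    simp only [Finset.coe_sigma, Set.mem_sigma_iff, Finset.mem_coe, Finset.mem_product,
      Finset.mem_sigma, Finset.mem_filter, hWd, mem_fib'] at h ⊢
    obtain ⟨-, ⟨⟨ha, hb, hc⟩, h3⟩, ⟨ha', hb', hc'⟩, h4⟩ := h
    have hb0 : b ≠ 0 := (hA b hb).ne'
    have hc0 : c ≠ 0 := (hA c hc).ne'
    refine ⟨Finset.div_mem_div (Finset.div_mem_div ha' hb) hc, ⟨hb, hc, ?_⟩, hb', hc', ?_⟩
    · have : a' / b / c * b * c = a' := by field_simp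
      rw [this]; exact ha'
    · have : a' / b / c * b' * c' = a := by
        rw [div_div, div_mul_eq_mul_div, div_mul_eq_mul_div, div_eq_iff (mul_ne_zero hb0 hc0)]
        rw [← h3] at h4
        linarith
      rw [this]; exact ha
  · rintro ⟨v, ⟨a, b, c⟩, ⟨a', b', c'⟩⟩ h ⟨v2, ⟨d, e, f⟩, ⟨d', e', f'⟩⟩ h' he
    simp only [Finset.coe_sigma, Set.mem_sigma_iff, Finset.mem_coe, Finset.mem_product,
      Finset.mem_filter, hWd] at h h'
    obtain ⟨-, ⟨⟨ha, hb, hc⟩, h3⟩, ⟨ha', hb', hc'⟩, h4⟩ := h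
    obtain ⟨-, ⟨⟨hd, he0, hf⟩, h5⟩, ⟨hd', he', hf'⟩, h6⟩ := h'
    simp only [Sigma.mk.injEq, heq_eq_eq, Prod.mk.injEq] at he
    obtain ⟨q1, ⟨q2, q3⟩, q4, q5⟩ := he
    subst q2 q3 q4 q5
    have hb0 : b ≠ 0 := (hA b hb).ne'
    have hc0 : c ≠ 0 := (hA c hc).ne'
    have e1 : a' = d' := by
      have h7 : a' / b / c * c * b = d' / b / c * c * b := by rw [q1]
      have h8 : ∀ t : ℝ, t / b / c * c * b = t := fun t => by field_simp
      rwa [h8, h8] at h7
    subst e1
    have e2 : v = v2 := by rw [← h4, ← h6]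
    subst e2
    have e3 : a = d := by
      have : a * (b * c) = d * (b * c) := by rw [h3, h5]
      exact mul_right_cancel₀ (mul_ne_zero hb0 hc0) this
    subst e3
    rfl

/-- the dyadic levels of the ratios -/
noncomputable def lev (A : Finset ℝ) (i : ℕ) : Finset ℝ :=
  (A / A).filter (fun l => Nat.log 2 (fib A l).card = i)

theorem cz_le (A : Finset ℝ) (hA : ∀ x ∈ A, 0 < x) (z : ℝ) :
    cz A z ≤ ∑ i ∈ Finset.range (Nat.log 2 A.card + 1),
      2 ^ (i + 1) * (A.filter (fun x => z * x ∈ lev A i)).card := by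
  unfold cz
  have h1 : ∀ a ∈ A, (fib A (z * a)).card ≤ ∑ i ∈ Finset.range (Nat.log 2 A.card + 1),
      2 ^ (i + 1) * (if z * a ∈ lev A i then 1 else 0) := by
    intro a ha
    rcases Nat.eq_zero_or_pos (fib A (z * a)).card with h0 | h0
    · rw [h0]; exact Nat.zero_le _
    · set i := Nat.log 2 (fib A (z * a)).card with hi
      have hmem : z * a ∈ lev A i := by
        unfold lev
        rw [Finset.mem_filter]
        refine ⟨?_, hi.symm⟩
        obtain ⟨x, hx⟩ := Finset.card_pos.1 h0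
        rw [mem_fib'] at hx
        have hx0 := hA x hx.1
        have : z * a = z * a * x / x := by field_simp
        rw [this]
        exact Finset.div_mem_div hx.2 hx.1
      have hir : i ∈ Finset.range (Nat.log 2 A.card + 1) := by
        rw [Finset.mem_range, Nat.lt_succ_iff]
        exact Nat.log_mono_right (Finset.card_le_card (Finset.filter_subset _ _))
      have h2 : (fib A (z * a)).card ≤ 2 ^ (i + 1) * (if z * a ∈ lev A i then 1 else 0) := by
        rw [if_pos hmem, mul_one]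
        exact (Nat.lt_pow_succ_log_self (by norm_num) _).le
      refine h2.trans ?_
      exact Finset.single_le_sum
        (f := fun i => 2 ^ (i + 1) * (if z * a ∈ lev A i then 1 else 0))
        (fun _ _ => Nat.zero_le _) hir
  refine (Finset.sum_le_sum h1).trans ?_
  rw [Finset.sum_comm]
  refine Finset.sum_le_sum fun i _ => ?_
  rw [← Finset.mul_sum, Finset.card_filter]

theorem T3up (A : Finset ℝ) (hA : ∀ x ∈ A, 0 < x) (Z : Finset ℝ) :
    ∃ i ∈ Finset.range (Nat.log 2 A.card + 1), ∑ z ∈ Z, (cz A z) ^ 2 ≤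
      4 * (Nat.log 2 A.card + 1) ^ 2 * (2 ^ i) ^ 2 *
        ∑ z ∈ Z, (A.filter (fun x => z * x ∈ lev A i)).card ^ 2 := by
  set J := Nat.log 2 A.card + 1 with hJ
  obtain ⟨i, hi, hmax⟩ := Finset.exists_max_image (Finset.range J)
    (fun i => ∑ z ∈ Z, (2 ^ (i + 1) * (A.filter (fun x => z * x ∈ lev A i)).card) ^ 2)
    ⟨0, by rw [Finset.mem_range]; omega⟩
  refine ⟨i, hi, ?_⟩
  calc ∑ z ∈ Z, (cz A z) ^ 2
      ≤ ∑ z ∈ Z, J * ∑ i ∈ Finset.range J,
          (2 ^ (i + 1) * (A.filter (fun x => z * x ∈ lev A i)).card) ^ 2 := by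
        refine Finset.sum_le_sum fun z _ => ?_
        refine (Nat.pow_le_pow_left (cz_le A hA z) 2).trans ?_
        have := @sq_sum_le_card_mul_sum_sq ℕ ℕ _ _ _ _ (Finset.range J)
          (fun i => 2 ^ (i + 1) * (A.filter (fun x => z * x ∈ lev A i)).card)
        rwa [Finset.card_range] at this
    _ = J * ∑ i ∈ Finset.range J, ∑ z ∈ Z,
          (2 ^ (i + 1) * (A.filter (fun x => z * x ∈ lev A i)).card) ^ 2 := by
        rw [← Finset.mul_sum, Finset.sum_comm]
    _ ≤ J * (J * ∑ z ∈ Z, (2 ^ (i + 1) * (A.filter (fun x => z * x ∈ lev A i)).card) ^ 2) := by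
        refine Nat.mul_le_mul_left _ ?_
        have := Finset.sum_le_card_nsmul (Finset.range J)
          (fun i => ∑ z ∈ Z, (2 ^ (i + 1) * (A.filter (fun x => z * x ∈ lev A i)).card) ^ 2) _
          hmax
        rwa [Finset.card_range, smul_eq_mul] at this
    _ = 4 * J ^ 2 * (2 ^ i) ^ 2 *
        ∑ z ∈ Z, (A.filter (fun x => z * x ∈ lev A i)).card ^ 2 := by
        have : ∀ z ∈ Z, (2 ^ (i + 1) * (A.filter (fun x => z * x ∈ lev A i)).card) ^ 2 =
            4 * (2 ^ i) ^ 2 * (A.filter (fun x => z * x ∈ lev A i)).card ^ 2 := by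
          intro z _
          rw [pow_succ]; ring
        rw [Finset.sum_congr rfl this, ← Finset.mul_sum]
        ring

theorem EAS (A H S Z : Finset ℝ) (hH : H.Nonempty) (hA : ∀ x ∈ A, 0 < x) (hS : ∀ l ∈ S, 0 < l) :
    H.card * (∑ z ∈ Z, (A.filter (fun x => z * x ∈ S)).card ^ 2) ^ 2 ≤
      4097 * (Nat.log 2 (A + H).card + 1) * A.card * S.card ^ 3 * (A + H).card ^ 2 := by
  have h0 : ∑ z ∈ Z, (A.filter (fun x => z * x ∈ S)).card ^ 2 ≤
      ∑ z ∈ S / A, (A.filter (fun x => z * x ∈ S)).card ^ 2 := by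
    have h1 : ∑ z ∈ Z, (A.filter (fun x => z * x ∈ S)).card ^ 2 =
        ∑ z ∈ Z.filter (fun z => z ∈ S / A), (A.filter (fun x => z * x ∈ S)).card ^ 2 := by
      refine (Finset.sum_filter_of_ne ?_).symm
      intro z _ hz
      have h2 : (A.filter (fun x => z * x ∈ S)).card ≠ 0 := by
        intro h; rw [h] at hz; exact hz (by norm_num)
      obtain ⟨x, hx⟩ := Finset.card_pos.1 (Nat.pos_of_ne_zero h2)
      rw [Finset.mem_filter] at hx
      have hx0 := hA x hx.1
      have : z = z * x / x := by field_simp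
      rw [this]
      exact Finset.div_mem_div hx.2 hx.1
    rw [h1]
    exact Finset.sum_le_sum_of_subset (fun z hz => (Finset.mem_filter.1 hz).2)
  have hz : ∀ z ∈ S / A, z ≠ 0 := by
    intro z hz
    obtain ⟨s, hs, a, ha, rfl⟩ := Finset.mem_div.1 hz
    exact div_ne_zero (hS s hs).ne' (hA a ha).ne'
  have hc : (S / A).card ≤ A.card * S.card :=
    (Finset.card_div_le (s := S) (t := A)).trans_eq (Nat.mul_comm _ _)
  have hT := pTM A H S (S / A) hH hz hc
  have h3 := Pool.Agent.W20.KF.ep3 A S (S / A) hA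
  have h2 : (∑ z ∈ S / A, (A.filter (fun x => z * x ∈ S)).card ^ 2) ^ 2 ≤
      (∑ z ∈ S / A, (A.filter (fun x => z * x ∈ S)).card) *
        ∑ z ∈ S / A, (A.filter (fun x => z * x ∈ S)).card ^ 3 :=
    Finset.sum_sq_le_sum_mul_sum_of_sq_le_mul _ (fun _ _ => Nat.zero_le _)
      (fun _ _ => Nat.zero_le _) (fun _ _ => le_of_eq (by ring))
  calc H.card * (∑ z ∈ Z, (A.filter (fun x => z * x ∈ S)).card ^ 2) ^ 2
      ≤ H.card * (∑ z ∈ S / A, (A.filter (fun x => z * x ∈ S)).card ^ 2) ^ 2 := by gcongr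
    _ ≤ H.card * ((∑ z ∈ S / A, (A.filter (fun x => z * x ∈ S)).card) *
        ∑ z ∈ S / A, (A.filter (fun x => z * x ∈ S)).card ^ 3) := by gcongr
    _ = (∑ z ∈ S / A, (A.filter (fun x => z * x ∈ S)).card) * (H.card *
        ∑ z ∈ S / A, (A.filter (fun x => z * x ∈ S)).card ^ 3) := by ring
    _ ≤ (A.card * S.card) *
        (4097 * (Nat.log 2 (A + H).card + 1) * ((A + H).card * S.card) ^ 2) := by gcongr
    _ = 4097 * (Nat.log 2 (A + H).card + 1) * A.card * S.card ^ 3 * (A + H).card ^ 2 := by ring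

/-- The inequality for three-fold products. -/
theorem three (A H : Finset ℝ) (hH : H.Nonempty) (hAne : A.Nonempty) (hA : ∀ x ∈ A, 0 < x) :
    ∃ (T : ℕ) (S : Finset ℝ), 1 ≤ T ∧ S.Nonempty ∧
      (∀ l ∈ S, 0 < l ∧ T ≤ (fib A l).card ∧ (fib A l).card < 2 * T) ∧
      S.card * T ≤ A.card ^ 2 ∧
      H.card * (A.card ^ 6) ^ 2 ≤
        ((A * (A * A)).card * (4 * (Nat.log 2 A.card + 1) ^ 2 * T ^ 2)) ^ 2 *
          (4097 * (Nat.log 2 (A + H).card + 1) * A.card * S.card ^ 3 * (A + H).card ^ 2) := by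
  obtain ⟨i, hi, h1⟩ := T3up A hA ((A / A) / A)
  have h2 := T3low A hA
  have hpos : ∀ l ∈ lev A i, 0 < l := by
    intro l hl
    unfold lev at hl
    obtain ⟨a, ha, b, hb, rfl⟩ := Finset.mem_div.1 (Finset.mem_filter.1 hl).1
    exact div_pos (hA a ha) (hA b hb)
  have h3 := EAS A H (lev A i) ((A / A) / A) hH hA hpos
  have hlev : ∀ l ∈ lev A i, 0 < l ∧ 2 ^ i ≤ (fib A l).card ∧ (fib A l).card < 2 * 2 ^ i := by
    intro l hl
    refine ⟨hpos l hl, ?_, ?_⟩
    · unfold lev at hl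
      obtain ⟨hl1, hl2⟩ := Finset.mem_filter.1 hl
      rw [← hl2]
      apply Nat.pow_log_le_self 2
      obtain ⟨a, ha, b, hb, rfl⟩ := Finset.mem_div.1 hl1
      have : 0 < (fib A (a / b)).card := by
        apply Finset.card_pos.2
        refine ⟨b, mem_fib'.2 ⟨hb, ?_⟩⟩
        rw [div_mul_cancel₀ _ (hA b hb).ne']
        exact ha
      omega
    · unfold lev at hl
      obtain ⟨hl1, hl2⟩ := Finset.mem_filter.1 hl
      rw [← hl2]
      have := Nat.lt_pow_succ_log_self (b := 2) (by norm_num) (fib A l).card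
      rw [pow_succ] at this
      omega
  set G := ∑ z ∈ (A / A) / A, (A.filter (fun x => z * x ∈ lev A i)).card ^ 2 with hG
  set J := Nat.log 2 A.card + 1 with hJ
  have hN1 : 1 ≤ A.card := hAne.card_pos
  have h4 : A.card ^ 6 ≤ (A * (A * A)).card * (4 * J ^ 2 * (2 ^ i) ^ 2 * G) :=
    h2.trans (Nat.mul_le_mul_left _ h1)
  refine ⟨2 ^ i, lev A i, Nat.one_le_two_pow, ?_, hlev, ?_, ?_⟩
  · rw [Finset.nonempty_iff_ne_empty]
    intro he
    have hG0 : G = 0 := by
      rw [hG]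
      apply Finset.sum_eq_zero
      intro z _
      rw [he]
      simp
    rw [hG0, Nat.mul_zero, Nat.mul_zero] at h4
    have : 0 < A.card ^ 6 := by positivity
    omega
  · calc (lev A i).card * 2 ^ i = ∑ _l ∈ lev A i, 2 ^ i := by
          rw [Finset.sum_const, smul_eq_mul]
      _ ≤ ∑ l ∈ lev A i, (fib A l).card := Finset.sum_le_sum fun l hl => (hlev l hl).2.1
      _ ≤ ∑ l ∈ A / A, (fib A l).card :=
          Finset.sum_le_sum_of_subset (Finset.filter_subset _ _)
      _ = A.card ^ 2 := (pCS A hA).2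
  · calc H.card * (A.card ^ 6) ^ 2
        ≤ H.card * ((A * (A * A)).card * (4 * J ^ 2 * (2 ^ i) ^ 2 * G)) ^ 2 := by gcongr
      _ = ((A * (A * A)).card * (4 * J ^ 2 * (2 ^ i) ^ 2)) ^ 2 * (H.card * G ^ 2) := by ring
      _ ≤ _ := by gcongr

end Pool.Agent.Helper318KF
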