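import Pool.Agent.Helper318KF.NF
import Pool.Agent.Helper318KF.TF
import Pool.Agent.W741.KF.KP
import Pool.Agent.Y569.SP.Chain5

/-!
# k-fold sums and products: the inequalities in logarithmic form
-/

set_option autoImplicit false
set_option linter.all false
set_option maxHeartbeats 1000000

open Finset
open scoped Classical Pointwise

namespace Pool.Agent.Helper318KF

open Pool.Agent.W904.AK Pool.Agent.W798.SP Pool.Agent.W798.KF Pool.Agent.TH408.SP
open Pool.Agent.W741.KF (lg_le)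

/-- the constant -/
noncomputable def cst5 (d : ℝ) : ℝ :=
  13 * Real.log 2 + 5 * Real.log 4097 + 13 * |d / 100 - Real.log (d / 100)|

theorem cst5_nonneg (d : ℝ) : 0 ≤ cst5 d := by
  unfold cst5
  have h1 : 0 ≤ Real.log 2 := Real.log_nonneg (by norm_num)
  have h2 : 0 ≤ Real.log 4097 := Real.log_nonneg (by norm_num)
  positivity

theorem n4log {δ : ℝ} (hδ : 0 < δ) (A : Finset ℝ) (hA : A.Nonempty) (hpos : ∀ x ∈ A, 0 < x) :
    11 * Real.log A.card + Real.log (A + A).card ≤ 5 * Real.log (A * A).card +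
      2 * Real.log (A + (A + A)).card + 2 * Real.log (A + (A + (A + A))).card +
      δ * Real.log A.card + cst5 δ := by
  unfold cst5
  obtain ⟨η, hηd⟩ : ∃ η : ℝ, η = δ / 100 := ⟨_, rfl⟩
  have hη : 0 < η := by rw [hηd]; positivity
  rw [← hηd]
  obtain ⟨T, S, hT1, hTN, hS, hE1, hE3, hE2⟩ := pDY3 A hA hpos
  have hCS1 := (pCS A hpos).1
  have h4 := four2 A S T hA hpos hT1 hS
  have eF : (A + A) + (A + A) = A + (A + (A + A)) := add_assoc _ _ _
  rw [eF] at h4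
  obtain ⟨N, hNd⟩ : ∃ N : ℕ, N = A.card := ⟨_, rfl⟩
  obtain ⟨K, hKd⟩ : ∃ K : ℕ, K = (A + A).card := ⟨_, rfl⟩
  obtain ⟨P, hPd⟩ : ∃ P : ℕ, P = (A * A).card := ⟨_, rfl⟩
  obtain ⟨D, hDd⟩ : ∃ D : ℕ, D = (A + (A + A)).card := ⟨_, rfl⟩
  obtain ⟨F, hFd⟩ : ∃ F : ℕ, F = (A + (A + (A + A))).card := ⟨_, rfl⟩
  obtain ⟨E, hEd⟩ : ∃ E : ℕ, E = en A := ⟨_, rfl⟩
  obtain ⟨n, hnd⟩ : ∃ n : ℕ, n = S.card := ⟨_, rfl⟩
  have hN1 : 1 ≤ N := by rw [hNd]; exact hA.card_pos
  have hK1 : 1 ≤ K := by rw [hKd]; exact (hA.add hA).card_pos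
  have hP1 : 1 ≤ P := by rw [hPd]; exact (hA.mul hA).card_pos
  have hD1 : 1 ≤ D := by rw [hDd]; exact (hA.add (hA.add hA)).card_pos
  have hF1 : 1 ≤ F := by rw [hFd]; exact (hA.add (hA.add (hA.add hA))).card_pos
  have hDN : D ≤ N ^ 3 := by
    have h1 : (A + (A + A)).card ≤ A.card * (A + A).card := Finset.card_add_le
    have h2 : (A + A).card ≤ A.card * A.card := Finset.card_add_le
    rw [hDd, hNd]
    calc (A + (A + A)).card ≤ A.card * (A + A).card := h1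
      _ ≤ A.card * (A.card * A.card) := Nat.mul_le_mul_left _ h2
      _ = A.card ^ 3 := by ring
  rw [← hNd, ← hPd, ← hEd] at hCS1
  rw [← hNd, ← hKd, ← hPd, ← hDd, ← hFd, ← hEd, ← hnd] at h4
  rw [← hnd, ← hEd, ← hNd] at hE1
  rw [← hNd, ← hKd, ← hPd, ← hDd, ← hFd]
  have hE0 : 1 ≤ E := by
    by_contra h
    have h0 : E = 0 := by omega
    rw [h0] at hCS1
    have : 0 < N ^ 4 := by positivity
    simp at hCS1
    omega
  have hn1 : 1 ≤ n := by
    by_contra h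
    have h0 : n = 0 := by omega
    rw [h0] at hE1
    simp at hE1
    omega
  have rN : (0 : ℝ) < N := by exact_mod_cast hN1
  have rK : (0 : ℝ) < K := by exact_mod_cast hK1
  have rP : (0 : ℝ) < P := by exact_mod_cast hP1
  have rD : (0 : ℝ) < D := by exact_mod_cast hD1
  have rF : (0 : ℝ) < F := by exact_mod_cast hF1
  have rE : (0 : ℝ) < E := by exact_mod_cast hE0
  have rn : (0 : ℝ) < n := by exact_mod_cast hn1
  have rT : (0 : ℝ) < T := by exact_mod_cast hT1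
  have hJle := lg_le hη hN1 hN1 (Nat.le_self_pow (by norm_num) N) 1 (by norm_num)
  rw [one_mul, Real.log_one] at hJle
  have hGle := lg_le hη hN1 hD1 hDN 4097 (by norm_num)
  have r4 : (K : ℝ) * (T ^ 2 * (n ^ 3 * (N * T) ^ 4)) ≤
      128 * ((Nat.log 2 N : ℝ) + 1) * E * F ^ 2 *
        (4097 * ((Nat.log 2 D : ℝ) + 1) * N * P ^ 3 * D ^ 2) := by exact_mod_cast h4
  have rCS : (N : ℝ) ^ 4 ≤ P * E := by exact_mod_cast hCS1
  have rE1 : (E : ℝ) ≤ 4 * ((Nat.log 2 N : ℝ) + 1) * (n * T ^ 2) := by exact_mod_cast hE1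
  have hlN0 : (0 : ℝ) ≤ (Nat.log 2 N : ℝ) := Nat.cast_nonneg _
  have hlD0 : (0 : ℝ) ≤ (Nat.log 2 D : ℝ) := Nat.cast_nonneg _
  obtain ⟨J, hJ⟩ : ∃ J : ℝ, J = (Nat.log 2 N : ℝ) + 1 := ⟨_, rfl⟩
  obtain ⟨G, hG⟩ : ∃ G : ℝ, G = 4097 * ((Nat.log 2 D : ℝ) + 1) := ⟨_, rfl⟩
  have rJ : 0 < J := by rw [hJ]; positivity
  have rG : 0 < G := by rw [hG]; positivity
  rw [← hJ] at r4 rE1 hJle
  rw [← hG] at r4 hGle
  have l4 := Real.log_le_log (by positivity) r4
  have lCS := Real.log_le_log (by positivity) rCS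
  have lE := Real.log_le_log (by positivity) rE1
  have e128 : Real.log 128 = 7 * Real.log 2 := by
    rw [show (128 : ℝ) = 2 ^ 7 by norm_num, Real.log_pow]
    push_cast
    ring
  have e4 : Real.log 4 = 2 * Real.log 2 := by
    rw [show (4 : ℝ) = 2 ^ 2 by norm_num, Real.log_pow]
    push_cast
    ring
  repeat (first
    | rw [Real.log_mul (by positivity) (by positivity)] at l4
    | rw [Real.log_pow] at l4)
  repeat (first
    | rw [Real.log_mul (by positivity) (by positivity)] at lCS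
    | rw [Real.log_pow] at lCS)
  repeat (first
    | rw [Real.log_mul (by positivity) (by positivity)] at lE
    | rw [Real.log_pow] at lE)
  rw [e128] at l4
  rw [e4] at lE
  push_cast at l4 lCS lE
  have hL0 : 0 ≤ Real.log (N : ℝ) := Real.log_nonneg (by exact_mod_cast hN1)
  have hab := le_abs_self (η - Real.log η)
  have hab0 := abs_nonneg (η - Real.log η)
  have hηδ : 100 * η * Real.log N = δ * Real.log N := by rw [hηd]; ring
  have hηL : 0 ≤ η * Real.log N := mul_nonneg hη.le hL0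
  have h97 : 0 ≤ Real.log 4097 := Real.log_nonneg (by norm_num)
  linarith only [l4, lCS, lE, hJle, hGle, hab, hab0, hηδ, hηL, h97]

theorem n5log {δ : ℝ} (hδ : 0 < δ) (A : Finset ℝ) (hA : A.Nonempty) (hpos : ∀ x ∈ A, 0 < x) :
    17 * Real.log A.card + 5 * Real.log (A + A).card ≤ 10 * Real.log (A + (A + A)).card +
      3 * Real.log (A * A).card + 4 * Real.log (A * (A * A)).card +
      δ * Real.log A.card + cst5 δ := by
  unfold cst5
  obtain ⟨η, hηd⟩ : ∃ η : ℝ, η = δ / 100 := ⟨_, rfl⟩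
  have hη : 0 < η := by rw [hηd]; positivity
  rw [← hηd]
  obtain ⟨T, S, hT1, hSne, hS, hE2, h5⟩ := three A (A + A) (hA.add hA) hA hpos
  have hdd := Pool.Agent.W798.KF.Up.dd (A := A) (H := A + A) (hA.add hA) hpos hT1 hS
  obtain ⟨N, hNd⟩ : ∃ N : ℕ, N = A.card := ⟨_, rfl⟩
  obtain ⟨K, hKd⟩ : ∃ K : ℕ, K = (A + A).card := ⟨_, rfl⟩
  obtain ⟨P, hPd⟩ : ∃ P : ℕ, P = (A * A).card := ⟨_, rfl⟩
  obtain ⟨D, hDd⟩ : ∃ D : ℕ, D = (A + (A + A)).card := ⟨_, rfl⟩
  obtain ⟨F, hFd⟩ : ∃ F : ℕ, F = (A * (A * A)).card := ⟨_, rfl⟩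
  obtain ⟨n, hnd⟩ : ∃ n : ℕ, n = S.card := ⟨_, rfl⟩
  have hN1 : 1 ≤ N := by rw [hNd]; exact hA.card_pos
  have hK1 : 1 ≤ K := by rw [hKd]; exact (hA.add hA).card_pos
  have hP1 : 1 ≤ P := by rw [hPd]; exact (hA.mul hA).card_pos
  have hD1 : 1 ≤ D := by rw [hDd]; exact (hA.add (hA.add hA)).card_pos
  have hF1 : 1 ≤ F := by rw [hFd]; exact (hA.mul (hA.mul hA)).card_pos
  have hn1 : 1 ≤ n := by rw [hnd]; exact hSne.card_pos
  have hDN : D ≤ N ^ 3 := by
    have h1 : (A + (A + A)).card ≤ A.card * (A + A).card := Finset.card_add_le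
    have h2 : (A + A).card ≤ A.card * A.card := Finset.card_add_le
    rw [hDd, hNd]
    calc (A + (A + A)).card ≤ A.card * (A + A).card := h1
      _ ≤ A.card * (A.card * A.card) := Nat.mul_le_mul_left _ h2
      _ = A.card ^ 3 := by ring
  rw [← hNd, ← hKd, ← hDd, ← hFd, ← hnd] at h5
  rw [← hNd, ← hKd, ← hPd, ← hDd, ← hnd] at hdd
  rw [← hnd, ← hNd] at hE2
  rw [← hNd, ← hKd, ← hPd, ← hDd, ← hFd]
  have rN : (0 : ℝ) < N := by exact_mod_cast hN1
  have rK : (0 : ℝ) < K := by exact_mod_cast hK1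
  have rP : (0 : ℝ) < P := by exact_mod_cast hP1
  have rD : (0 : ℝ) < D := by exact_mod_cast hD1
  have rF : (0 : ℝ) < F := by exact_mod_cast hF1
  have rn : (0 : ℝ) < n := by exact_mod_cast hn1
  have rT : (0 : ℝ) < T := by exact_mod_cast hT1
  have hJle := lg_le hη hN1 hN1 (Nat.le_self_pow (by norm_num) N) 1 (by norm_num)
  rw [one_mul, Real.log_one] at hJle
  have hGle := lg_le hη hN1 hD1 hDN 4097 (by norm_num)
  have r5 : (K : ℝ) * (N ^ 6) ^ 2 ≤
      (F * (4 * ((Nat.log 2 N : ℝ) + 1) ^ 2 * T ^ 2)) ^ 2 *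
        (4097 * ((Nat.log 2 D : ℝ) + 1) * N * n ^ 3 * D ^ 2) := by exact_mod_cast h5
  have rdd : (K : ℝ) ^ 3 * (T * (N * (n * T)) ^ 2) ^ 2 ≤
      (4097 * ((Nat.log 2 D : ℝ) + 1) * N * P ^ 3 * D ^ 2) *
        (4097 * ((Nat.log 2 D : ℝ) + 1) * (D * N) ^ 2) ^ 2 := by exact_mod_cast hdd
  have rE2 : (n : ℝ) * T ≤ N ^ 2 := by exact_mod_cast hE2
  have hlN0 : (0 : ℝ) ≤ (Nat.log 2 N : ℝ) := Nat.cast_nonneg _
  have hlD0 : (0 : ℝ) ≤ (Nat.log 2 D : ℝ) := Nat.cast_nonneg _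
  obtain ⟨J, hJ⟩ : ∃ J : ℝ, J = (Nat.log 2 N : ℝ) + 1 := ⟨_, rfl⟩
  obtain ⟨G, hG⟩ : ∃ G : ℝ, G = 4097 * ((Nat.log 2 D : ℝ) + 1) := ⟨_, rfl⟩
  have rJ : 0 < J := by rw [hJ]; positivity
  have rG : 0 < G := by rw [hG]; positivity
  rw [← hJ] at r5 hJle
  rw [← hG] at r5 rdd hGle
  have l5 := Real.log_le_log (by positivity) r5
  have ldd := Real.log_le_log (by positivity) rdd
  have lE2 := Real.log_le_log (by positivity) rE2
  have e4 : Real.log 4 = 2 * Real.log 2 := by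
    rw [show (4 : ℝ) = 2 ^ 2 by norm_num, Real.log_pow]
    push_cast
    ring
  repeat (first
    | rw [Real.log_mul (by positivity) (by positivity)] at l5
    | rw [Real.log_pow] at l5)
  repeat (first
    | rw [Real.log_mul (by positivity) (by positivity)] at ldd
    | rw [Real.log_pow] at ldd)
  repeat (first
    | rw [Real.log_mul (by positivity) (by positivity)] at lE2
    | rw [Real.log_pow] at lE2)
  rw [e4] at l5
  push_cast at l5 ldd lE2
  have hL0 : 0 ≤ Real.log (N : ℝ) := Real.log_nonneg (by exact_mod_cast hN1)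
  have hab := le_abs_self (η - Real.log η)
  have hab0 := abs_nonneg (η - Real.log η)
  have hηδ : 100 * η * Real.log N = δ * Real.log N := by rw [hηd]; ring
  have hηL : 0 ≤ η * Real.log N := mul_nonneg hη.le hL0
  have h97 : 0 ≤ Real.log 4097 := Real.log_nonneg (by norm_num)
  have h20 : 0 ≤ Real.log 2 := Real.log_nonneg (by norm_num)
  linarith only [l5, ldd, lE2, hJle, hGle, hab, hab0, hηδ, hηL, h97, h20]

theorem n6log {δ : ℝ} (hδ : 0 < δ) : ∃ c : ℝ, 0 ≤ c ∧ ∀ (A : Finset ℝ), A.Nonempty →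
    (∀ x ∈ A, 0 < x) → 680 * Real.log A.card ≤ 298 * Real.log (A + A).card +
      209 * Real.log (A * A).card + δ * Real.log A.card + c := by
  obtain ⟨c, hc, H⟩ := Pool.Agent.Y569.SP.pPO5 δ hδ
  refine ⟨|Real.log c|, abs_nonneg _, ?_⟩
  intro A hA hpos
  have h := H A hA hpos
  have hN : (0 : ℝ) < A.card := by exact_mod_cast hA.card_pos
  have hK : (0 : ℝ) < (A + A).card := by exact_mod_cast (hA.add hA).card_pos
  have hP : (0 : ℝ) < (A * A).card := by exact_mod_cast (hA.mul hA).card_pos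
  have hNp : (0 : ℝ) < (A.card : ℝ) ^ (680 - δ) := Real.rpow_pos_of_pos hN _
  have l := Real.log_le_log (by positivity) h
  rw [Real.log_mul hc.ne' hNp.ne', Real.log_rpow hN, Real.log_mul (by positivity) (by positivity),
    Real.log_pow, Real.log_pow] at l
  push_cast at l
  have := neg_abs_le (Real.log c)
  linarith

end Pool.Agent.Helper318KF
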