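import Pool.Agent.W798.KF.Up
import Pool.Agent.W637.SP.EN

/-!
# k-fold sums and products: four-fold sums of sets with few products

For a rich ratio `l` of `A` the set `A_l + A_l` lies in the part `(A + A)_l` of `A + A`, and the
Katz-Koester inclusion together with the energy bound of Solymosi for `A_l` gives a lower bound for
`A_l + A_l`. The argument of Solymosi for the set `A + A` and the rich ratios of `A` then gives a
lower bound for the four-fold sum set.
-/

set_option autoImplicit false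
set_option linter.all false

open Finset
open scoped Classical Pointwise

namespace Pool.Agent.Helper318KF

open Pool.Agent.W904.AK Pool.Agent.W798.SP Pool.Agent.W798.KF

theorem mem_fib {A : Finset ℝ} {l x : ℝ} : x ∈ fib A l ↔ x ∈ A ∧ l * x ∈ A := by
  unfold fib; rw [Finset.mem_filter]

/-- Cauchy-Schwarz for the products of two sets. -/
theorem crossE (A B : Finset ℝ) (hA : ∀ x ∈ A, 0 < x) (hB : ∀ x ∈ B, 0 < x) :
    (A.card * B.card) ^ 2 ≤ (A * B).card * ∑ l ∈ B / B, (fib A l).card * (fib B l).card := by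
  set W : Finset (ℝ × ℝ) := A ×ˢ B with hWd
  have hmap : ∀ w ∈ W, w.1 * w.2 ∈ A * B := by
    intro w hw
    rw [hWd, Finset.mem_product] at hw
    exact Finset.mul_mem_mul hw.1 hw.2
  have hcount : W.card = ∑ v ∈ A * B, (W.filter (fun w => w.1 * w.2 = v)).card :=
    Finset.card_eq_sum_card_fiberwise hmap
  have hWc : W.card = A.card * B.card := Finset.card_product _ _
  have hCS : W.card ^ 2 ≤ (A * B).card *
      ∑ v ∈ A * B, (W.filter (fun w => w.1 * w.2 = v)).card ^ 2 := by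
    rw [hcount]
    exact sq_sum_le_card_mul_sum_sq
  rw [← hWc]
  refine hCS.trans (Nat.mul_le_mul_left _ ?_)
  have h1 : ∑ v ∈ A * B, (W.filter (fun w => w.1 * w.2 = v)).card ^ 2 =
      ((A * B).sigma (fun v => (W.filter (fun w => w.1 * w.2 = v)) ×ˢ
        (W.filter (fun w => w.1 * w.2 = v)))).card := by
    rw [Finset.card_sigma]
    exact Finset.sum_congr rfl fun v _ => by rw [Finset.card_product, sq]
  have h2 : ∑ l ∈ B / B, (fib A l).card * (fib B l).card =
      ((B / B).sigma (fun l => fib A l ×ˢ fib B l)).card := by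
    rw [Finset.card_sigma]
    exact Finset.sum_congr rfl fun l _ => (Finset.card_product _ _).symm
  rw [h1, h2]
  refine Finset.card_le_card_of_injOn
    (fun x => (⟨x.2.2.2 / x.2.1.2, (x.2.2.1, x.2.1.2)⟩ : Σ _ : ℝ, ℝ × ℝ)) ?_ ?_
  · rintro ⟨v, ⟨a, b⟩, ⟨a', b'⟩⟩ h
    simp only [Finset.coe_sigma, Set.mem_sigma_iff, Finset.mem_coe, Finset.mem_product,
      Finset.mem_filter, hWd, mem_fib] at h ⊢
    obtain ⟨-, ⟨⟨ha, hb⟩, hab⟩, ⟨ha', hb'⟩, hab'⟩ := h
    have hb0 : b ≠ 0 := (hB b hb).ne'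
    refine ⟨Finset.div_mem_div hb' hb, ⟨ha', ?_⟩, hb, ?_⟩
    · have : b' / b * a' = a := by
        rw [div_mul_eq_mul_div, div_eq_iff hb0]
        linarith
      rw [this]; exact ha
    · rw [div_mul_cancel₀ _ hb0]; exact hb'
  · rintro ⟨v, ⟨a, b⟩, ⟨a', b'⟩⟩ h ⟨v2, ⟨c, d⟩, ⟨c', d'⟩⟩ h' he
    simp only [Finset.coe_sigma, Set.mem_sigma_iff, Finset.mem_coe, Finset.mem_product,
      Finset.mem_filter, hWd] at h h'
    obtain ⟨-, ⟨⟨ha, hb⟩, hab⟩, ⟨ha', hb'⟩, hab'⟩ := h
    obtain ⟨-, ⟨⟨hc, hd⟩, hcd⟩, ⟨hc', hd'⟩, hcd'⟩ := h'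
    simp only [Sigma.mk.injEq, heq_eq_eq, Prod.mk.injEq] at he
    obtain ⟨he1, he2, he3⟩ := he
    subst he2 he3
    have hb0 : b ≠ 0 := (hB b hb).ne'
    have e1 : b' = d' := by
      have := congrArg (fun t => t * b) he1
      simpa [div_mul_cancel₀ _ hb0] using this
    subst e1
    have e2 : v = v2 := by rw [← hab', ← hcd']
    subst e2
    have e3 : a = c := by
      have : a * b = c * b := by rw [hab, hcd]
      exact mul_right_cancel₀ hb0 this
    subst e3
    rfl

theorem crossE2 (A B : Finset ℝ) (hBA : B ⊆ A) :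
    (∑ l ∈ B / B, (fib A l).card * (fib B l).card) ^ 2 ≤ en A * en B := by
  refine (Finset.sum_mul_sq_le_sq_mul_sq _ _ _).trans ?_
  unfold en
  refine Nat.mul_le_mul ?_ le_rfl
  exact Finset.sum_le_sum_of_subset (Finset.div_subset_div hBA hBA)

/-- The lower bound for the part of `A + A`. -/
theorem fibre (A : Finset ℝ) (hA : ∀ x ∈ A, 0 < x) (l : ℝ) (T : ℕ) (hT1 : 1 ≤ T)
    (hT : T ≤ (fib A l).card) :
    (A.card * T) ^ 4 ≤ (fib (A * A) l).card ^ 2 *
      (en A * (8 * (fib (A + A) l).card ^ 2 * (Nat.log 2 A.card + 1))) := by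
  set B := fib A l with hB
  have hBA : B ⊆ A := Finset.filter_subset _ _
  have hBpos : ∀ x ∈ B, 0 < x := fun x hx => hA x (hBA hx)
  have h1 : A * B ⊆ fib (A * A) l := by
    intro x hx
    obtain ⟨a, ha, b, hb, rfl⟩ := Finset.mem_mul.1 hx
    rw [hB, mem_fib] at hb
    rw [mem_fib]
    refine ⟨Finset.mul_mem_mul ha hb.1, ?_⟩
    have : l * (a * b) = a * (l * b) := by ring
    rw [this]
    exact Finset.mul_mem_mul ha hb.2
  have h2 : B + B ⊆ fib (A + A) l := by
    intro x hx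
    obtain ⟨a, ha, b, hb, rfl⟩ := Finset.mem_add.1 hx
    rw [hB, mem_fib] at ha hb
    rw [mem_fib]
    refine ⟨Finset.add_mem_add ha.1 hb.1, ?_⟩
    rw [mul_add]
    exact Finset.add_mem_add ha.2 hb.2
  have h3 := crossE A B hA hBpos
  have h4 := crossE2 A B hBA
  have h5 : en B ≤ 8 * (fib (A + A) l).card ^ 2 * (Nat.log 2 A.card + 1) := by
    refine (Pool.Agent.W637.SP.en_holds B hBpos).trans ?_
    gcongr
  calc (A.card * T) ^ 4 ≤ (A.card * B.card) ^ 4 := by gcongr
    _ = ((A.card * B.card) ^ 2) ^ 2 := by ring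
    _ ≤ ((A * B).card * ∑ l ∈ B / B, (fib A l).card * (fib B l).card) ^ 2 := by gcongr
    _ = (A * B).card ^ 2 * (∑ l ∈ B / B, (fib A l).card * (fib B l).card) ^ 2 := by ring
    _ ≤ (fib (A * A) l).card ^ 2 * (en A * en B) := by gcongr
    _ ≤ (fib (A * A) l).card ^ 2 *
      (en A * (8 * (fib (A + A) l).card ^ 2 * (Nat.log 2 A.card + 1))) := by gcongr

theorem markov (S : Finset ℝ) (ρ : ℝ → ℕ) :
    S.card ≤ 2 * (S.filter (fun l => S.card * ρ l ≤ 2 * ∑ l ∈ S, ρ l)).card := by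
  set Q := ∑ l ∈ S, ρ l with hQ
  set S' := S.filter (fun l => S.card * ρ l ≤ 2 * Q) with hS'
  set S'' := S.filter (fun l => ¬ (S.card * ρ l ≤ 2 * Q)) with hS''
  have h1 : S'.card + S''.card = S.card := Finset.card_filter_add_card_filter_not _
  have h2 : S''.card * (2 * Q + 1) ≤ S.card * Q := by
    calc S''.card * (2 * Q + 1) = ∑ _l ∈ S'', (2 * Q + 1) := by
          rw [Finset.sum_const, smul_eq_mul]
      _ ≤ ∑ l ∈ S'', S.card * ρ l := by
          apply Finset.sum_le_sum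
          intro l hl
          have := (Finset.mem_filter.1 hl).2
          omega
      _ = S.card * ∑ l ∈ S'', ρ l := by rw [Finset.mul_sum]
      _ ≤ S.card * Q := by
          apply Nat.mul_le_mul_left
          rw [hQ]
          exact Finset.sum_le_sum_of_subset (Finset.filter_subset _ _)
  have h3 : 2 * S''.card ≤ S.card := by
    by_contra h
    push Not at h
    have : (S.card + 1) * (2 * Q + 1) ≤ 2 * S''.card * (2 * Q + 1) :=
      Nat.mul_le_mul_right _ h
    nlinarith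
  omega

/-- The inequality for four-fold sums. -/
theorem four (A S : Finset ℝ) (T : ℕ) (hAne : A.Nonempty) (hA : ∀ x ∈ A, 0 < x) (hT1 : 1 ≤ T)
    (hS : ∀ l ∈ S, 0 < l ∧ T ≤ (fib A l).card ∧ (fib A l).card < 2 * T) :
    S.card ^ 3 * (A.card * T) ^ 4 ≤ 128 * (Nat.log 2 A.card + 1) * en A *
      (∑ l ∈ S, (fib (A * A) l).card) ^ 2 * ((A + A) + (A + A)).card ^ 2 := by
  set Q := ∑ l ∈ S, (fib (A * A) l).card with hQ
  have hm := markov S (fun l => (fib (A * A) l).card)
  set S' := S.filter (fun l => S.card * (fib (A * A) l).card ≤ 2 * Q) with hS'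
  rcases S.eq_empty_or_nonempty with hSe | hSne
  · rw [hSe]
    simp
  have hS'ne : S'.Nonempty := by
    rw [← Finset.card_pos]
    have := hSne.card_pos
    omega
  obtain ⟨l0, hl0, hmin⟩ := Finset.exists_min_image S' (fun l => (fib (A + A) l).card) hS'ne
  have hAA : ∀ x ∈ A + A, 0 < x := by
    intro x hx
    obtain ⟨a, ha, b, hb, rfl⟩ := Finset.mem_add.1 hx
    exact add_pos (hA a ha) (hA b hb)
  have h1 := Pool.Agent.W637.SP.class_le hAA (fib (A + A) l0).card S' hmin (hAne.add hAne)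
  obtain ⟨hl1, hl2⟩ := Finset.mem_filter.1 hl0
  have h2 := fibre A hA l0 T hT1 (hS l0 hl1).2.1
  set J := Nat.log 2 A.card + 1 with hJ
  set F := (fib (A + A) l0).card with hF
  set ρ := (fib (A * A) l0).card with hρ
  calc S.card ^ 3 * (A.card * T) ^ 4 = S.card * (S.card ^ 2 * (A.card * T) ^ 4) := by ring
    _ ≤ (2 * S'.card) * (S.card ^ 2 * (ρ ^ 2 * (en A * (8 * F ^ 2 * J)))) := by gcongr
    _ = (2 * S'.card) * ((S.card * ρ) ^ 2 * (en A * (8 * F ^ 2 * J))) := by ring
    _ ≤ (2 * S'.card) * ((2 * Q) ^ 2 * (en A * (8 * F ^ 2 * J))) := by gcongr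
    _ = 64 * J * en A * Q ^ 2 * (S'.card * F ^ 2) := by ring
    _ ≤ 64 * J * en A * Q ^ 2 * (2 * ((A + A) + (A + A)).card ^ 2) := by gcongr
    _ = 128 * J * en A * Q ^ 2 * ((A + A) + (A + A)).card ^ 2 := by ring

theorem four2 (A S : Finset ℝ) (T : ℕ) (hAne : A.Nonempty) (hA : ∀ x ∈ A, 0 < x) (hT1 : 1 ≤ T)
    (hS : ∀ l ∈ S, 0 < l ∧ T ≤ (fib A l).card ∧ (fib A l).card < 2 * T) :
    (A + A).card * (T ^ 2 * (S.card ^ 3 * (A.card * T) ^ 4)) ≤
      128 * (Nat.log 2 A.card + 1) * en A * ((A + A) + (A + A)).card ^ 2 *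
        (4097 * (Nat.log 2 (A + (A + A)).card + 1) * A.card * (A * A).card ^ 3 *
          (A + (A + A)).card ^ 2) := by
  have h1 := four A S T hAne hA hT1 hS
  have h2 := pEP A (A + A) S (hAne.add hAne) hA (fun l hl => (hS l hl).1)
  have h3 : T * ∑ l ∈ S, (fib (A * A) l).card ≤
      ∑ l ∈ S, (fib A l).card * (fib (A * A) l).card := by
    rw [Finset.mul_sum]
    exact Finset.sum_le_sum fun l hl => Nat.mul_le_mul_right _ (hS l hl).2.1
  set Q := ∑ l ∈ S, (fib (A * A) l).card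
  set V := ∑ l ∈ S, (fib A l).card * (fib (A * A) l).card
  set J := Nat.log 2 A.card + 1 with hJ
  calc (A + A).card * (T ^ 2 * (S.card ^ 3 * (A.card * T) ^ 4))
      ≤ (A + A).card * (T ^ 2 * (128 * J * en A * Q ^ 2 * ((A + A) + (A + A)).card ^ 2)) := by
        gcongr
    _ = 128 * J * en A * ((A + A) + (A + A)).card ^ 2 * ((A + A).card * (T * Q) ^ 2) := by ring
    _ ≤ 128 * J * en A * ((A + A) + (A + A)).card ^ 2 * ((A + A).card * V ^ 2) := by gcongr
    _ ≤ _ := by gcongr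

end Pool.Agent.Helper318KF
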